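import Pool.Agent.H205R3.Horo

/-!
# Finite orbits in the horofunction boundary of virtually abelian groups: commutative part
-/

set_option autoImplicit false

namespace Pool.Agent.Helper814_FO

/-- additive functions on a commutative group -/
def IsH {B : Type*} [CommGroup B] (φ : B → ℝ) : Prop := ∀ a b, φ (a * b) = φ a + φ b

section
variable {B : Type*} [CommGroup B] {φ : B → ℝ}

theorem IsH.one (h : IsH φ) : φ 1 = 0 := by
  have := h 1 1
  rw [mul_one] at this
  linarith

theorem IsH.inv (h : IsH φ) (a : B) : φ a⁻¹ = - φ a := by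
  have := h a a⁻¹
  rw [mul_inv_cancel, h.one] at this
  linarith

theorem IsH.pow (h : IsH φ) (a : B) (n : ℕ) : φ (a ^ n) = n * φ a := by
  induction n with
  | zero => simp [h.one]
  | succ n ih => rw [pow_succ, h, ih]; push_cast; ring

theorem IsH.prod {ι : Type*} (h : IsH φ) (s : Finset ι) (f : ι → B) :
    φ (∏ i ∈ s, f i) = ∑ i ∈ s, φ (f i) := by
  classical
  induction s using Finset.induction_on with
  | empty => simp [h.one]
  | insert a s ha ih => rw [Finset.prod_insert ha, Finset.sum_insert ha, h, ih]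

theorem IsH.add_smul {ψ : B → ℝ} (h : IsH φ) (h' : IsH ψ) (s : ℝ) :
    IsH (fun a => φ a + s * ψ a) := by
  intro a b
  simp only
  rw [h, h']
  ring

theorem IsH.neg (h : IsH φ) : IsH (fun a => - φ a) := by
  intro a b
  simp only
  rw [h]
  ring

/-- additive functions vanishing on a subgroup of infinite index -/
theorem exists_IsH (B : Type) [CommGroup B] [Group.FG B] (L : Subgroup B)
    (hL : ¬ L.FiniteIndex) : ∃ ψ : B → ℝ, IsH ψ ∧ (∀ a ∈ L, ψ a = 0) ∧ ∃ a, ψ a ≠ 0 := by
  classical
  have hfg : Group.FG (B ⧸ L) := inferInstance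
  have hfg' : AddGroup.FG (Additive (B ⧸ L)) := inferInstance
  obtain ⟨n, ι, fι, p, hp, e, ⟨f⟩⟩ :=
    AddCommGroup.equiv_free_prod_directSum_zmod (Additive (B ⧸ L))
  rcases Nat.eq_zero_or_pos n with hn | hn
  · exfalso
    apply hL
    subst hn
    have : ∀ i, NeZero (p i ^ e i) := fun i => ⟨pow_ne_zero _ (hp i).ne_zero⟩
    have : ∀ i, Finite (ZMod (p i ^ e i)) := fun i => inferInstance
    have h1 : Finite (DirectSum ι fun i => ZMod (p i ^ e i)) := by
      have : Function.Injective (fun (x : DirectSum ι fun i => ZMod (p i ^ e i)) (i : ι) => x i) :=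
        DFunLike.coe_injective
      exact Finite.of_injective _ this
    have h2 : Finite ((Fin 0 →₀ ℤ) × (DirectSum ι fun i => ZMod (p i ^ e i))) := inferInstance
    have h3 : Finite (Additive (B ⧸ L)) := Finite.of_equiv _ f.symm.toEquiv
    have h4 : Finite (B ⧸ L) := h3
    exact Subgroup.finiteIndex_of_finite_quotient
  · refine ⟨fun a => ((f (Additive.ofMul (a : B ⧸ L))).1 ⟨0, hn⟩ : ℤ), ?_, ?_, ?_⟩
    · intro a b
      simp only
      rw [QuotientGroup.mk_mul, ofMul_mul, map_add, Prod.fst_add, Finsupp.add_apply]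
      push_cast
      rfl
    · intro a ha
      simp only
      have : (a : B ⧸ L) = 1 := (QuotientGroup.eq_one_iff a).2 ha
      rw [this, ofMul_one, map_zero]
      simp
    · obtain ⟨q, hq⟩ := Quotient.exists_rep
        (Additive.toMul (f.symm (Finsupp.single (⟨0, hn⟩ : Fin n) (1 : ℤ), 0)))
      refine ⟨q, ?_⟩
      simp only
      have : ((q : B ⧸ L)) =
        Additive.toMul (f.symm (Finsupp.single (⟨0, hn⟩ : Fin n) (1 : ℤ), 0)) := hq
      rw [this, ofMul_toMul, AddEquiv.apply_symm_apply]
      simp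

/-- an additive function vanishing on a subgroup of finite index is zero -/
theorem IsH.zero_of_index (h : IsH φ) (L : Subgroup B) [L.FiniteIndex]
    (h0 : ∀ a ∈ L, φ a = 0) (a : B) : φ a = 0 := by
  obtain ⟨n, hn, -, hm⟩ := Subgroup.exists_pow_mem_of_index_ne_zero
    (Subgroup.FiniteIndex.index_ne_zero (H := L)) a
  have := h0 _ hm
  rw [h.pow] at this
  have hn' : (n : ℝ) ≠ 0 := by exact_mod_cast hn.ne'
  rcases mul_eq_zero.1 this with h1 | h1
  · exact absurd h1 hn'
  · exact h1

/-- an additive function vanishing on generators vanishes on the subgroup -/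
theorem IsH.zero_on_closure (h : IsH φ) (s : Set B) (h0 : ∀ a ∈ s, φ a = 0) :
    ∀ a ∈ Subgroup.closure s, φ a = 0 := by
  intro a ha
  induction ha using Subgroup.closure_induction with
  | mem x hx => exact h0 x hx
  | one => exact h.one
  | mul x y _ _ hx hy => rw [h, hx, hy, add_zero]
  | inv x _ hx => rw [h.inv, hx, neg_zero]

end

end Pool.Agent.Helper814_FO
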