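import Pool.Agent.Helper814_FO.FO1

/-!
# Finite orbits in the horofunction boundary of virtually abelian groups: the direction
-/

set_option autoImplicit false
set_option linter.unusedSectionVars false

open scoped IsMulCommutative
open Pool.Agent.H205R3.Horo

namespace Pool.Agent.Helper814_FO

variable {G : Type} [Group G] {S : Finset G} (A : Subgroup G) [A.FiniteIndex] [A.Normal]
  [IsMulCommutative A]

theorem IsH.T {φ : A → ℝ} (h : IsH φ) (ν : K A S → ℕ) :
    φ (T A ν) = ∑ i, (ν i : ℝ) * φ (tau A i) := by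
  unfold H205R3.Horo.T
  rw [h.prod]
  exact Finset.sum_congr rfl fun i _ => h.pow _ _

/-- additive functions bounded by the length on all cycles -/
def Fs (S : Finset G) (φ : A → ℝ) : Prop :=
  IsH φ ∧ ∀ i : K A S, ev i.2.1 ∈ A → φ (tau A i) ≤ i.2.1.length

open Classical in
/-- the cycles where the bound is attained -/
noncomputable def Tt (S : Finset G) (φ : A → ℝ) : Finset (K A S) :=
  Finset.univ.filter fun i => ev i.2.1 ∈ A ∧ φ (tau A i) = i.2.1.length

/-- the subgroup generated by a set of cycles -/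
noncomputable def KV (V : Finset (K A S)) : Subgroup A := Subgroup.closure ((tau A) '' (V : Set (K A S)))

theorem mem_Tt {φ : A → ℝ} {i : K A S} :
    i ∈ Tt A S φ ↔ ev i.2.1 ∈ A ∧ φ (tau A i) = i.2.1.length := by
  unfold Tt
  simp

/-- the cycles generate -/
theorem zero_of_tau (hS : Subgroup.closure (S : Set G) = ⊤) {ψ : A → ℝ} (h : IsH ψ)
    (h0 : ∀ i : K A S, ev i.2.1 ∈ A → ψ (tau A i) = 0) (a : A) : ψ a = 0 := by
  obtain ⟨w, hw, -⟩ := exists_geod hS (a : G)
  obtain ⟨j, ν, h1, h2, -⟩ := complete A w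
  have hj : ev j.1 ∈ A := by
    have : ev j.1 = ((T A ν : A) : G)⁻¹ * a := by rw [← hw, ← h2]; group
    rw [this]
    exact A.mul_mem (A.inv_mem (T A ν).2) a.2
  let i0 : K A S := (((1 : G) : G ⧸ A), j)
  have ht : ((tau A i0 : A) : G) = ev j.1 := by
    rw [tau_coe A i0 hj]
    have := out_conj A (1 : G) (ev j.1) hj
    rw [one_mul, inv_one, mul_one] at this
    exact this
  have ha : a = T A ν * tau A i0 := by
    apply Subtype.ext
    push_cast
    rw [ht, h2, hw]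
  rw [ha, h, IsH.T A h, h0 i0 hj, add_zero]
  apply Finset.sum_eq_zero
  intro i _
  by_cases hi : ν i = 0
  · simp [hi]
  · rw [h0 i (h1 i hi).2, mul_zero]

/-- improving the function -/
theorem improve (hS : Subgroup.closure (S : Set G) = ⊤) [Group.FG A] {φ : A → ℝ}
    (hφ : Fs A S φ) (hK : ¬ (KV A (Tt A S φ)).FiniteIndex) :
    ∃ φ' : A → ℝ, Fs A S φ' ∧ (Tt A S φ).card < (Tt A S φ').card := by
  classical
  obtain ⟨ψ0, hψ0, hv0, a, ha⟩ := exists_IsH A (KV A (Tt A S φ)) hK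
  have hne : ∃ i : K A S, ev i.2.1 ∈ A ∧ ψ0 (tau A i) ≠ 0 := by
    by_contra hcon
    push Not at hcon
    exact ha (zero_of_tau A hS hψ0 hcon a)
  obtain ⟨ψ, hψ, hv, i0, hi0, hpos⟩ : ∃ ψ : A → ℝ, IsH ψ ∧
      (∀ a ∈ KV A (Tt A S φ), ψ a = 0) ∧ ∃ i : K A S, ev i.2.1 ∈ A ∧ 0 < ψ (tau A i) := by
    obtain ⟨i, hi, hne⟩ := hne
    rcases lt_or_gt_of_ne hne with h | h
    · refine ⟨fun a => - ψ0 a, hψ0.neg, fun a ha => by simp [hv0 a ha], i, hi, by linarith⟩
    · exact ⟨ψ0, hψ0, hv0, i, hi, h⟩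
  have hvT : ∀ i ∈ Tt A S φ, ψ (tau A i) = 0 := fun i hi =>
    hv _ (Subgroup.subset_closure ⟨i, by exact_mod_cast hi, rfl⟩)
  let I : Finset (K A S) := Finset.univ.filter fun i => ev i.2.1 ∈ A ∧ 0 < ψ (tau A i)
  have hI : I.Nonempty := ⟨i0, by simp [I, hi0, hpos]⟩
  obtain ⟨i1, hi1, hmin⟩ := Finset.exists_min_image I
    (fun i => ((i.2.1.length : ℝ) - φ (tau A i)) / ψ (tau A i)) hI
  have hi1' : ev i1.2.1 ∈ A ∧ 0 < ψ (tau A i1) := by simpa [I] using hi1
  set s : ℝ := ((i1.2.1.length : ℝ) - φ (tau A i1)) / ψ (tau A i1) with hs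
  have hs0 : 0 ≤ s := div_nonneg (by linarith [hφ.2 i1 hi1'.1]) hi1'.2.le
  refine ⟨fun a => φ a + s * ψ a, ⟨hφ.1.add_smul hψ s, ?_⟩, ?_⟩
  · intro i hi
    simp only
    by_cases hp : 0 < ψ (tau A i)
    · have h1 := hmin i (by simp [I, hi, hp])
      have h2 : s * ψ (tau A i) ≤ (i.2.1.length : ℝ) - φ (tau A i) := (le_div_iff₀ hp).1 h1
      linarith
    · have h1 : s * ψ (tau A i) ≤ 0 := mul_nonpos_of_nonneg_of_nonpos hs0 (not_lt.1 hp)
      linarith [hφ.2 i hi]
  · apply Finset.card_lt_card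
    rw [Finset.ssubset_iff_of_subset]
    · refine ⟨i1, ?_, ?_⟩
      · rw [mem_Tt]
        refine ⟨hi1'.1, ?_⟩
        rw [hs, div_mul_cancel₀ _ hi1'.2.ne']
        ring
      · intro h
        have := hvT i1 h
        linarith [hi1'.2]
    · intro i hi
      have h1 := (mem_Tt A).1 hi
      rw [mem_Tt]
      refine ⟨h1.1, ?_⟩
      rw [hvT i hi, h1.2]
      ring

/-- there is a function for which the tight cycles generate a subgroup of finite index -/
theorem exists_vertex (hS : Subgroup.closure (S : Set G) = ⊤) [Group.FG A] :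
    ∃ φ : A → ℝ, Fs A S φ ∧ (KV A (Tt A S φ)).FiniteIndex := by
  have key : ∀ (k : ℕ) (φ : A → ℝ), Fs A S φ → Fintype.card (K A S) - (Tt A S φ).card ≤ k →
      ∃ φ : A → ℝ, Fs A S φ ∧ (KV A (Tt A S φ)).FiniteIndex := by
    intro k
    induction k with
    | zero =>
      intro φ hφ hk
      by_cases hK : (KV A (Tt A S φ)).FiniteIndex
      · exact ⟨φ, hφ, hK⟩
      · obtain ⟨φ', -, h2⟩ := improve A hS hφ hK
        have := Finset.card_le_univ (Tt A S φ')
        omega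
    | succ k ih =>
      intro φ hφ hk
      by_cases hK : (KV A (Tt A S φ)).FiniteIndex
      · exact ⟨φ, hφ, hK⟩
      · obtain ⟨φ', h1, h2⟩ := improve A hS hφ hK
        exact ih φ' h1 (by omega)
  refine key _ (fun _ => 0) ⟨fun a b => by simp, fun i _ => by simp⟩ le_rfl

/-- avoiding finitely many kernels -/
theorem avoid (V : Finset (K A S)) (Ψ : Finset (A → ℝ))
    (hΨ : ∀ ψ ∈ Ψ, IsH ψ ∧ ∃ i ∈ V, ψ (tau A i) ≠ 0) :
    ∃ ν : K A S → ℕ, (∀ i, ν i ≠ 0 → i ∈ V) ∧ ∀ ψ ∈ Ψ, ψ (T A ν) ≠ 0 := by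
  classical
  induction Ψ using Finset.induction_on with
  | empty => exact ⟨fun _ => 0, fun i hi => absurd rfl hi, fun ψ hψ => absurd hψ (by simp)⟩
  | insert ψ0 Ψ h0 ih =>
    obtain ⟨ν, hν, hne⟩ := ih fun ψ hψ => hΨ ψ (Finset.mem_insert_of_mem hψ)
    by_cases hz : ψ0 (T A ν) = 0
    · obtain ⟨hh0, i, hi, hi0⟩ := hΨ ψ0 (Finset.mem_insert_self _ _)
      obtain ⟨N, hN⟩ := exists_nat_gt (∑ ψ ∈ Ψ, |ψ (tau A i) / ψ (T A ν)|)
      have hN' : ∀ ψ ∈ Ψ, |ψ (tau A i) / ψ (T A ν)| < N := fun ψ hψ =>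
        (Finset.single_le_sum (f := fun ψ : A → ℝ => |ψ (tau A i) / ψ (T A ν)|)
          (fun _ _ => abs_nonneg _) hψ).trans_lt hN
      let ν' : K A S → ℕ := fun k => N * ν k + (Pi.single i 1 : K A S → ℕ) k
      have hT : ∀ ψ : A → ℝ, IsH ψ → ψ (T A ν') = N * ψ (T A ν) + ψ (tau A i) := by
        intro ψ hψ
        rw [IsH.T A hψ, IsH.T A hψ, Finset.mul_sum]
        have : ∀ k, ((ν' k : ℕ) : ℝ) * ψ (tau A k) = N * (ν k * ψ (tau A k)) +
            (if k = i then ψ (tau A k) else 0) := by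
          intro k
          simp only [ν', Pi.single_apply]
          split_ifs <;> push_cast <;> ring
        rw [Finset.sum_congr rfl fun k _ => this k, Finset.sum_add_distrib]
        simp
      refine ⟨ν', ?_, ?_⟩
      · intro k hk
        by_cases hki : k = i
        · rw [hki]; exact hi
        · apply hν k
          intro h
          apply hk
          simp [ν', h, hki]
      · intro ψ hψ
        rcases Finset.mem_insert.1 hψ with rfl | hψ
        · rw [hT _ hh0, hz, mul_zero, zero_add]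
          exact hi0
        · have hψH := (hΨ ψ (Finset.mem_insert_of_mem hψ)).1
          rw [hT _ hψH]
          intro hcon
          have h1 : ψ (tau A i) / ψ (T A ν) = - N := by
            rw [div_eq_iff (hne ψ hψ)]
            linarith
          have h2 := hN' ψ hψ
          rw [h1, abs_neg, Nat.abs_cast] at h2
          exact lt_irrefl _ h2
    · refine ⟨ν, hν, fun ψ hψ => ?_⟩
      rcases Finset.mem_insert.1 hψ with rfl | hψ
      · exact hz
      · exact hne ψ hψ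

/-- the direction -/
theorem exists_direction (hS : Subgroup.closure (S : Set G) = ⊤) [Group.FG A] :
    ∃ φ : A → ℝ, Fs A S φ ∧ ∃ ν : K A S → ℕ, (∀ i, ν i ≠ 0 → i ∈ Tt A S φ) ∧
      ∀ V : Finset (K A S), ¬ (KV A V).FiniteIndex →
        ∃ ψ : A → ℝ, IsH ψ ∧ (∀ a ∈ KV A V, ψ a = 0) ∧ ψ (T A ν) ≠ 0 := by
  classical
  obtain ⟨φ, hφ, hfin⟩ := exists_vertex A hS
  have h : ∀ V : Finset (K A S), ∃ ψ : A → ℝ, ¬ (KV A V).FiniteIndex →
      (IsH ψ ∧ (∀ a ∈ KV A V, ψ a = 0) ∧ ∃ a, ψ a ≠ 0) := by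
    intro V
    by_cases hV : (KV A V).FiniteIndex
    · exact ⟨fun _ => 0, fun h => absurd hV h⟩
    · obtain ⟨ψ, h1⟩ := exists_IsH A (KV A V) hV
      exact ⟨ψ, fun _ => h1⟩
  choose ψ hψ using h
  obtain ⟨ν, hν, hne⟩ := avoid A (Tt A S φ)
    ((Finset.univ.filter fun V : Finset (K A S) => ¬ (KV A V).FiniteIndex).image ψ) (by
      intro χ hχ
      obtain ⟨V, hV, rfl⟩ := Finset.mem_image.1 hχ
      have hV' : ¬ (KV A V).FiniteIndex := by simpa using hV
      obtain ⟨h1, h2, a, ha⟩ := hψ V hV'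
      refine ⟨h1, ?_⟩
      by_contra hcon
      push Not at hcon
      apply ha
      apply h1.zero_of_index (KV A (Tt A S φ))
      apply h1.zero_on_closure
      rintro _ ⟨i, hi, rfl⟩
      exact hcon i (by exact_mod_cast hi))
  refine ⟨φ, hφ, ν, hν, fun V hV => ⟨ψ V, (hψ V hV).1, (hψ V hV).2.1, ?_⟩⟩
  apply hne
  apply Finset.mem_image_of_mem
  simpa using hV

end Pool.Agent.Helper814_FO
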