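import Pool.Agent.Helper814_FO.FO2

/-!
# Finite orbits in the horofunction boundary of virtually abelian groups: periodicity
-/

set_option autoImplicit false
set_option linter.unusedSectionVars false

open scoped IsMulCommutative
open Filter
open Pool.Agent.H205R3.Horo

namespace Pool.Agent.Helper814_FO

variable {G : Type} [Group G] {S : Finset G} (A : Subgroup G) [A.FiniteIndex] [A.Normal]
  [IsMulCommutative A]

/-- `x` is a product of tight cycles at cosets visited by the core word `j` -/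
def Mem (φ : A → ℝ) (j : W A S) (x : A) : Prop :=
  ∃ ν : K A S → ℕ, (∀ i, ν i ≠ 0 → i ∈ Tt A S φ ∧ i.1 ∈ vis A j.1) ∧ T A ν = x

open Classical in
/-- some power of `v` is in the interior of the cone of the tight cycles for `j` -/
def Ty2 (φ : A → ℝ) (v : A) (j : W A S) : Prop :=
  ∃ p : ℕ, 1 ≤ p ∧ ∃ μ : K A S → ℕ, (∀ i, μ i ≠ 0 → i ∈ Tt A S φ ∧ i.1 ∈ vis A j.1) ∧
    T A μ = v ^ p ∧ (KV A (Finset.univ.filter fun i => μ i ≠ 0)).FiniteIndex

theorem T_mul (n : ℕ) (a : K A S → ℕ) : T A (fun i => n * a i) = T A a ^ n := by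
  unfold H205R3.Horo.T
  rw [← Finset.prod_pow]
  exact Finset.prod_congr rfl fun i _ => by rw [← pow_mul, mul_comm]

theorem T_zero : T A (fun _ : K A S => 0) = 1 := by
  unfold H205R3.Horo.T
  simp

open Classical in
theorem T_single (i : K A S) : T A (Pi.single i 1 : K A S → ℕ) = tau A i := by
  unfold H205R3.Horo.T
  rw [Finset.prod_eq_single i]
  · simp
  · intro b _ hb; simp [hb]
  · intro h; exact absurd (Finset.mem_univ _) h

variable {A}

theorem Mem.mul {φ : A → ℝ} {j : W A S} {x y : A} (hx : Mem A φ j x) (hy : Mem A φ j y) :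
    Mem A φ j (x * y) := by
  obtain ⟨a, ha, rfl⟩ := hx
  obtain ⟨b, hb, rfl⟩ := hy
  refine ⟨fun i => a i + b i, ?_, T_add A a b⟩
  intro i hi
  by_cases h : a i = 0
  · apply hb
    intro h'
    apply hi
    simp [h, h']
  · exact ha i h

theorem Mem.one {φ : A → ℝ} {j : W A S} : Mem A φ j 1 :=
  ⟨fun _ => 0, fun _ h => absurd rfl h, T_zero A⟩

theorem Mem.pow {φ : A → ℝ} {j : W A S} {x : A} (hx : Mem A φ j x) (n : ℕ) :
    Mem A φ j (x ^ n) := by
  induction n with
  | zero => rw [pow_zero]; exact Mem.one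
  | succ n ih => rw [pow_succ]; exact ih.mul hx

theorem fin_of_not {φ : A → ℝ} {v : A} (hdir : ∀ V : Finset (K A S), ¬ (KV A V).FiniteIndex →
    ∃ ψ : A → ℝ, IsH ψ ∧ (∀ a ∈ KV A V, ψ a = 0) ∧ ψ v ≠ 0) {j : W A S} (hj : ¬ Ty2 A φ v j)
    (x : A) : {n : ℕ | Mem A φ j (v ^ n * x)}.Finite := by
  classical
  by_contra hinf
  have hinf' : (Set.ofPred fun n : ℕ => Mem A φ j (v ^ n * x)).Infinite := hinf
  set p : ℕ → Prop := fun n => Mem A φ j (v ^ n * x) with hp
  have hmem : ∀ n, p (Nat.nth p n) := fun n => Nat.nth_mem_of_infinite hinf' n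
  have hmono := Nat.nth_strictMono hinf'
  choose ν hν hT using hmem
  obtain ⟨m, n, hmn, hle⟩ := wellQuasiOrdered_le (fun n => ν n)
  have hlt : Nat.nth p m < Nat.nth p n := hmono hmn
  set μ : K A S → ℕ := fun i => ν n i - ν m i with hμ
  have hsum : (fun i => μ i + ν m i) = ν n := by
    funext i
    have : ν m i ≤ ν n i := hle i
    simp only [hμ]
    omega
  have h1 : T A μ * T A (ν m) = T A (ν n) := by
    rw [← T_add, hsum]
  have h2 : T A μ = v ^ (Nat.nth p n - Nat.nth p m) := by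
    rw [hT, hT] at h1
    have h3 : v ^ Nat.nth p n = v ^ (Nat.nth p n - Nat.nth p m) * v ^ Nat.nth p m := by
      rw [← pow_add, Nat.sub_add_cancel hlt.le]
    rw [h3, mul_assoc] at h1
    exact mul_right_cancel h1
  apply hj
  refine ⟨Nat.nth p n - Nat.nth p m, by omega, μ, ?_, h2, ?_⟩
  · intro i hi
    apply hν n i
    intro h0
    apply hi
    simp only [hμ]
    omega
  · by_contra hK
    obtain ⟨ψ, hψ, h0, hne⟩ := hdir _ hK
    have h4 : ψ (T A μ) = 0 := by
      rw [IsH.T A hψ]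
      apply Finset.sum_eq_zero
      intro i _
      by_cases hi : μ i = 0
      · simp [hi]
      · rw [h0 _ (Subgroup.subset_closure ⟨i, by simpa using hi, rfl⟩), mul_zero]
    rw [h2, hψ.pow] at h4
    rcases mul_eq_zero.1 h4 with h5 | h5
    · have : Nat.nth p n - Nat.nth p m = 0 := by exact_mod_cast h5
      omega
    · exact hne h5

open Classical in
theorem shift {φ : A → ℝ} {v : A} {j : W A S} {p : ℕ} {μ : K A S → ℕ}
    (hμ : ∀ i, μ i ≠ 0 → i ∈ Tt A S φ ∧ i.1 ∈ vis A j.1) (hT : T A μ = v ^ p) {P : ℕ}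
    (hP : 1 ≤ P) (hp : p ∣ P) {h : A}
    (hh : h ∈ KV A (Finset.univ.filter fun i => μ i ≠ 0)) :
    ∃ k : ℕ, Mem A φ j (v ^ (P * k) * h) := by
  obtain ⟨q, rfl⟩ := hp
  have hq : 1 ≤ q := by
    rcases Nat.eq_zero_or_pos q with h0 | h0
    · subst h0
      simp at hP
    · exact h0
  have hv : T A (fun i => q * μ i) = v ^ (p * q) := by
    rw [T_mul, hT, ← pow_mul]
  induction hh using Subgroup.closure_induction'' with
  | mem x hx =>
    obtain ⟨i, hi, rfl⟩ := hx
    have hi' : μ i ≠ 0 := by simpa using hi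
    refine ⟨0, ?_⟩
    rw [mul_zero, pow_zero, one_mul]
    refine ⟨Pi.single i 1, ?_, T_single A i⟩
    intro k hk
    have : k = i := by
      by_contra hne
      exact hk (by simp [hne])
    rw [this]
    exact hμ i hi'
  | inv_mem x hx =>
    obtain ⟨i, hi, rfl⟩ := hx
    have hi' : μ i ≠ 0 := by simpa using hi
    refine ⟨1, fun k => q * μ k - (Pi.single i 1 : K A S → ℕ) k, ?_, ?_⟩
    · intro k hk
      apply hμ k
      intro h0
      apply hk
      simp [h0]
    · rw [mul_one, ← hv, eq_mul_inv_iff_mul_eq, ← T_single A i, ← T_add]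
      congr 1
      funext k
      by_cases hk : k = i
      · subst hk
        have : 1 ≤ q * μ k := Nat.one_le_iff_ne_zero.2 (Nat.mul_ne_zero (by omega) hi')
        simp only [Pi.single_eq_same]
        omega
      · simp [hk]
  | one =>
    refine ⟨0, ?_⟩
    rw [mul_zero, pow_zero, one_mul]
    exact Mem.one
  | mul x y _ _ hx hy =>
    obtain ⟨k1, h1⟩ := hx
    obtain ⟨k2, h2⟩ := hy
    refine ⟨k1 + k2, ?_⟩
    have : v ^ (p * q * (k1 + k2)) * (x * y) = (v ^ (p * q * k1) * x) * (v ^ (p * q * k2) * y) := by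
      rw [mul_add, pow_add]
      exact mul_mul_mul_comm _ _ _ _
    rw [this]
    exact h1.mul h2

/-- the modulus and the subgroup of periods -/
theorem main_dich {φ : A → ℝ} {v : A} (hdir : ∀ V : Finset (K A S), ¬ (KV A V).FiniteIndex →
    ∃ ψ : A → ℝ, IsH ψ ∧ (∀ a ∈ KV A V, ψ a = 0) ∧ ψ v ≠ 0) :
    ∃ P : ℕ, 1 ≤ P ∧ ∃ H : Subgroup A, H.FiniteIndex ∧ v ^ P ∈ H ∧ ∀ j : W A S,
      (∀ x : A, (∀ᶠ n : ℕ in atTop, Mem A φ j (v ^ (P * n) * x)) ∨
        (∀ᶠ n : ℕ in atTop, ¬ Mem A φ j (v ^ (P * n) * x))) ∧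
      (∀ x : A, ∀ h ∈ H, (∀ᶠ n : ℕ in atTop, Mem A φ j (v ^ (P * n) * x)) →
        ∀ᶠ n : ℕ in atTop, Mem A φ j (v ^ (P * n) * (h * x))) := by
  classical
  have hdat : ∀ j : W A S, ∃ (p : ℕ) (L : Subgroup A), 1 ≤ p ∧ L.FiniteIndex ∧
      (Ty2 A φ v j → ∃ μ : K A S → ℕ, (∀ i, μ i ≠ 0 → i ∈ Tt A S φ ∧ i.1 ∈ vis A j.1) ∧
        T A μ = v ^ p ∧ L = KV A (Finset.univ.filter fun i => μ i ≠ 0)) := by
    intro j
    by_cases h : Ty2 A φ v j
    · obtain ⟨p, hp, μ, h1, h2, h3⟩ := h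
      exact ⟨p, _, hp, h3, fun _ => ⟨μ, h1, h2, rfl⟩⟩
    · exact ⟨1, ⊤, le_rfl, inferInstance, fun h' => absurd h' h⟩
  choose p L hp hL hμ using hdat
  have hfin : Finite (W A S) := inferInstance
  have : Fintype (W A S) := Fintype.ofFinite _
  have hH : (⨅ j, L j).FiniteIndex := Subgroup.finiteIndex_iInf hL
  set H : Subgroup A := ⨅ j, L j with hHdef
  have hidx : 1 ≤ H.index := Nat.one_le_iff_ne_zero.2 hH.index_ne_zero
  have hprod : 1 ≤ ∏ j, p j := Nat.one_le_iff_ne_zero.2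
    (Finset.prod_ne_zero_iff.2 fun j _ => Nat.one_le_iff_ne_zero.1 (hp j))
  set P : ℕ := H.index * ∏ j, p j with hPdef
  have hP : 1 ≤ P := Nat.one_le_iff_ne_zero.2
    (Nat.mul_ne_zero (Nat.one_le_iff_ne_zero.1 hidx) (Nat.one_le_iff_ne_zero.1 hprod))
  refine ⟨P, hP, H, hH, ?_, fun j => ?_⟩
  · rw [hPdef, pow_mul]
    exact H.pow_mem (Subgroup.pow_index_mem H v) _
  · by_cases hj : Ty2 A φ v j
    · obtain ⟨μ, h1, h2, h3⟩ := hμ j hj
      have hdvd : p j ∣ P := (Finset.dvd_prod_of_mem p (Finset.mem_univ j)).trans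
        (Dvd.intro_left _ rfl)
      have hPM : Mem A φ j (v ^ P) := by
        obtain ⟨q, hq⟩ := hdvd
        rw [hq, pow_mul, ← h2]
        exact Mem.pow ⟨μ, h1, rfl⟩ q
      have hmono : ∀ (x : A) (n0 n : ℕ), n0 ≤ n → Mem A φ j (v ^ (P * n0) * x) →
          Mem A φ j (v ^ (P * n) * x) := by
        intro x n0 n hle hm
        have : v ^ (P * n) * x = (v ^ P) ^ (n - n0) * (v ^ (P * n0) * x) := by
          rw [← mul_assoc, ← pow_mul, ← pow_add, ← mul_add, Nat.sub_add_cancel hle]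
        rw [this]
        exact (hPM.pow _).mul hm
      refine ⟨fun x => ?_, fun x h hh hev => ?_⟩
      · by_cases hex : ∃ n, Mem A φ j (v ^ (P * n) * x)
        · obtain ⟨n0, hn0⟩ := hex
          left
          filter_upwards [eventually_ge_atTop n0] with n hn
          exact hmono x n0 n hn hn0
        · right
          push Not at hex
          exact Eventually.of_forall hex
      · obtain ⟨n1, hn1⟩ := hev.exists
        have hhL : h ∈ L j := (Subgroup.mem_iInf.1 hh) j
        rw [h3] at hhL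
        obtain ⟨k, hk⟩ := shift h1 h2 hP hdvd hhL
        filter_upwards [eventually_ge_atTop (k + n1)] with n hn
        apply hmono _ (k + n1) n hn
        have : v ^ (P * (k + n1)) * (h * x) = (v ^ (P * k) * h) * (v ^ (P * n1) * x) := by
          rw [mul_add, pow_add]
          exact mul_mul_mul_comm _ _ _ _
        rw [this]
        exact hk.mul hn1
    · have hno : ∀ x : A, ∀ᶠ n : ℕ in atTop, ¬ Mem A φ j (v ^ (P * n) * x) := by
        intro x
        have hf := fin_of_not hdir hj x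
        have h1 : ∀ᶠ m : ℕ in atTop, ¬ Mem A φ j (v ^ m * x) := by
          rw [← Nat.cofinite_eq_atTop]
          exact hf.compl_mem_cofinite
        have h2 : Tendsto (fun n : ℕ => P * n) atTop atTop :=
          tendsto_id.const_mul_atTop' (by omega)
        exact h2.eventually h1
      refine ⟨fun x => Or.inr (hno x), fun x h _ hev => ?_⟩
      obtain ⟨n, hn1, hn2⟩ := (hev.and (hno x)).exists
      exact absurd hn1 hn2

end Pool.Agent.Helper814_FO
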