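import Pool.Agent.Helper814_FO.FO3

/-!
# Finite orbits in the horofunction boundary of virtually abelian groups: word lengths
-/

set_option autoImplicit false
set_option linter.unusedSectionVars false

open scoped IsMulCommutative
open Filter
open Pool.Agent.H205R3.Horo

namespace Pool.Agent.Helper814_FO

variable {G : Type} [Group G] {S : Finset G}

theorem wl_mul (hS : Subgroup.closure (S : Set G) = ⊤) (g h : G) :
    wl S (g * h) ≤ wl S g + wl S h := by
  obtain ⟨u, hu, hu'⟩ := exists_geod hS g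
  obtain ⟨w, hw, hw'⟩ := exists_geod hS h
  have := wl_le (u ++ w)
  rw [ev_append, hu, hw, List.length_append, hu', hw'] at this
  exact this

variable {A : Subgroup G} [A.FiniteIndex] [A.Normal] [IsMulCommutative A]

/-- a word visiting all cosets -/
theorem exists_tour (hS : Subgroup.closure (S : Set G) = ⊤) :
    ∃ w : List (Ltr S), ∀ q : G ⧸ A, q ∈ vis A w := by
  classical
  have : Fintype (G ⧸ A) := Fintype.ofFinite _
  have key : ∀ s : Finset (G ⧸ A), ∃ w : List (Ltr S), ∀ q ∈ s, q ∈ vis A w := by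
    intro s
    induction s using Finset.induction_on with
    | empty => exact ⟨[], fun q hq => absurd hq (by simp)⟩
    | insert q s _ ih =>
      obtain ⟨w, hw⟩ := ih
      obtain ⟨u, hu, -⟩ := exists_geod hS ((ev w)⁻¹ * q.out)
      refine ⟨w ++ u, fun q' hq' => ?_⟩
      rcases Finset.mem_insert.1 hq' with rfl | hq'
      · have h1 := mem_vis_prefix A (w ++ u) ([] : List (Ltr S))
        rw [List.append_nil, ev_append, hu, mul_inv_cancel_left, QuotientGroup.out_eq'] at h1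
        exact h1
      · exact vis_prefix_subset A w u (hw q' hq')
  obtain ⟨w, hw⟩ := key Finset.univ
  exact ⟨w, fun q => hw q (Finset.mem_univ q)⟩

theorem len_real (ν : K A S → ℕ) : ((len A ν : ℕ) : ℝ) = ∑ i, (ν i : ℝ) * (i.2.1.length : ℝ) := by
  unfold len
  push_cast
  rfl

theorem len_tight {φ : A → ℝ} (hφ : Fs A S φ) (ν : K A S → ℕ)
    (h : ∀ i, ν i ≠ 0 → i ∈ Tt A S φ) : φ (T A ν) = (len A ν : ℕ) := by
  rw [IsH.T A hφ.1, len_real]
  apply Finset.sum_congr rfl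
  intro i _
  by_cases hi : ν i = 0
  · simp [hi]
  · rw [((mem_Tt A).1 (h i hi)).2]

/-- the slack of a representation -/
theorem slack {φ : A → ℝ} (hφ : Fs A S φ) (ν : K A S → ℕ) (h : ∀ i, ν i ≠ 0 → ev i.2.1 ∈ A)
    (k : K A S) : (ν k : ℝ) * ((k.2.1.length : ℝ) - φ (tau A k)) ≤ len A ν - φ (T A ν) := by
  rw [IsH.T A hφ.1, len_real, ← Finset.sum_sub_distrib]
  have h1 : ∀ i ∈ Finset.univ, 0 ≤ (ν i : ℝ) * (i.2.1.length : ℝ) - ν i * φ (tau A i) := by
    intro i _
    by_cases hi : ν i = 0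
    · simp [hi]
    · have := hφ.2 i (h i hi)
      have h2 : (0 : ℝ) ≤ ν i := Nat.cast_nonneg _
      nlinarith
  have h2 := Finset.single_le_sum h1 (Finset.mem_univ k)
  linarith

theorem phi_le {φ : A → ℝ} (hφ : Fs A S φ) (ν : K A S → ℕ) (h : ∀ i, ν i ≠ 0 → ev i.2.1 ∈ A) :
    φ (T A ν) ≤ len A ν := by
  rw [IsH.T A hφ.1, len_real]
  apply Finset.sum_le_sum
  intro i _
  by_cases hi : ν i = 0
  · simp [hi]
  · have := hφ.2 i (h i hi)
    have h2 : (0 : ℝ) ≤ ν i := Nat.cast_nonneg _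
    nlinarith

open Classical in
/-- the element `y (ev j)⁻¹` if it is in `A` -/
noncomputable def yj (A : Subgroup G) (j : W A S) (y : G) : A :=
  if h : y * (ev j.1)⁻¹ ∈ A then ⟨y * (ev j.1)⁻¹, h⟩ else 1

theorem yj_eq {j : W A S} {y : G} {a b : A} (h : (b : G) * ev j.1 = a * y) : b = a * yj A j y := by
  have h1 : y * (ev j.1)⁻¹ = (a : G)⁻¹ * b := by
    have : (b : G) = a * y * (ev j.1)⁻¹ := by rw [← h]; group
    rw [this]; group
  have h2 : y * (ev j.1)⁻¹ ∈ A := by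
    rw [h1]
    exact A.mul_mem (A.inv_mem a.2) b.2
  apply Subtype.ext
  unfold yj
  rw [dif_pos h2]
  push_cast
  rw [h1]; group

/-- upper bound -/
theorem upper (hS : Subgroup.closure (S : Set G) = ⊤) {φ : A → ℝ} (hφ : Fs A S φ)
    {ν0 : K A S → ℕ} (hν0 : ∀ i, ν0 i ≠ 0 → i ∈ Tt A S φ) (y : G) :
    ∃ C : ℝ, ∀ n : ℕ, (wl S (((T A ν0 ^ n : A) : G) * y) : ℝ) ≤ φ (T A ν0 ^ n) + C := by
  obtain ⟨w, hw⟩ := exists_tour (A := A) hS
  refine ⟨w.length + wl S ((ev w)⁻¹ * y), fun n => ?_⟩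
  have hsup : ∀ i, n * ν0 i ≠ 0 → i ∈ Tt A S φ := fun i hi => hν0 i (fun h => hi (by simp [h]))
  have h1 := sound A w (fun i => n * ν0 i)
    (fun i hi => ⟨hw i.1, ((mem_Tt A).1 (hsup i hi)).1⟩)
  rw [T_mul] at h1
  have h2 := wl_mul hS (((T A ν0 ^ n : A) : G) * ev w) ((ev w)⁻¹ * y)
  have h3 : ((T A ν0 ^ n : A) : G) * ev w * ((ev w)⁻¹ * y) = ((T A ν0 ^ n : A) : G) * y := by group
  rw [h3] at h2
  have h4 := len_tight hφ (fun i => n * ν0 i) hsup
  rw [T_mul] at h4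
  rw [h4]
  have h5 : (wl S (((T A ν0 ^ n : A) : G) * y) : ℝ) ≤
      wl S (((T A ν0 ^ n : A) : G) * ev w) + wl S ((ev w)⁻¹ * y) := by exact_mod_cast h2
  have h6 : (wl S (((T A ν0 ^ n : A) : G) * ev w) : ℝ) ≤
      w.length + (len A (fun i => n * ν0 i) : ℕ) := by exact_mod_cast h1
  linarith

/-- lower bound -/
theorem lower (hS : Subgroup.closure (S : Set G) = ⊤) {φ : A → ℝ} (hφ : Fs A S φ) (y : G) :
    ∃ C : ℝ, ∀ a : A, φ a - C ≤ wl S ((a : G) * y) := by
  classical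
  have : Fintype (W A S) := Fintype.ofFinite _
  refine ⟨∑ j : W A S, |φ (yj A j y)|, fun a => ?_⟩
  obtain ⟨w, hw, hw'⟩ := exists_geod hS ((a : G) * y)
  obtain ⟨j, ν, h1, h2, h3⟩ := complete A w
  rw [hw] at h2
  have h4 := yj_eq h2
  have h5 := phi_le hφ ν (fun i hi => (h1 i hi).2)
  rw [h4, hφ.1] at h5
  have h6 : |φ (yj A j y)| ≤ ∑ j : W A S, |φ (yj A j y)| :=
    Finset.single_le_sum (f := fun j : W A S => |φ (yj A j y)|) (fun _ _ => abs_nonneg _)
      (Finset.mem_univ j)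
  have h7 := neg_abs_le (φ (yj A j y))
  have h8 : (len A ν : ℝ) ≤ wl S ((a : G) * y) := by
    rw [← hw']
    have : len A ν ≤ w.length := by omega
    exact_mod_cast this
  linarith

/-- the key inequality -/
theorem lemQ (hS : Subgroup.closure (S : Set G) = ⊤) {φ : A → ℝ} (hφ : Fs A S φ)
    {ν0 : K A S → ℕ} (hν0 : ∀ i, ν0 i ≠ 0 → i ∈ Tt A S φ) {P : ℕ} {H : Subgroup A}
    (hdich : ∀ j : W A S,
      (∀ x : A, (∀ᶠ n : ℕ in atTop, Mem A φ j (T A ν0 ^ (P * n) * x)) ∨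
        (∀ᶠ n : ℕ in atTop, ¬ Mem A φ j (T A ν0 ^ (P * n) * x))) ∧
      (∀ x : A, ∀ h ∈ H, (∀ᶠ n : ℕ in atTop, Mem A φ j (T A ν0 ^ (P * n) * x)) →
        ∀ᶠ n : ℕ in atTop, Mem A φ j (T A ν0 ^ (P * n) * (h * x))))
    (y : G) {h : A} (hh : h ∈ H) :
    ∀ᶠ n : ℕ in atTop, (wl S (((T A ν0 ^ (P * n) : A) : G) * (h * y)) : ℝ) ≤
      wl S (((T A ν0 ^ (P * n) : A) : G) * y) + φ h := by
  classical
  have hfW : Fintype (W A S) := Fintype.ofFinite _
  obtain ⟨C, hC⟩ := upper hS hφ hν0 y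
  set C1 : ℝ := ∑ j : W A S, |φ (yj A j y)| with hC1
  set B : ℕ := ∑ i : K A S, ⌈(C + C1) / ((i.2.1.length : ℝ) - φ (tau A i))⌉₊ with hB
  let X : W A S → (K A S → Fin (B + 1)) → A := fun j μ =>
    yj A j y * (T A (fun i => (μ i : ℕ)))⁻¹
  have hall : ∀ᶠ n : ℕ in atTop, ∀ (j : W A S) (μ : K A S → Fin (B + 1)),
      Mem A φ j (T A ν0 ^ (P * n) * X j μ) → Mem A φ j (T A ν0 ^ (P * n) * (h * X j μ)) := by
    rw [eventually_all]
    intro j
    rw [eventually_all]
    intro μ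
    rcases (hdich j).1 (X j μ) with h1 | h1
    · filter_upwards [(hdich j).2 (X j μ) h hh h1] with n hn _
      exact hn
    · filter_upwards [h1] with n hn h2
      exact absurd h2 hn
  filter_upwards [hall] with n hn
  obtain ⟨w, hw, hw'⟩ := exists_geod hS (((T A ν0 ^ (P * n) : A) : G) * y)
  obtain ⟨j, ν, h1, h2, h3⟩ := complete A w
  rw [hw] at h2
  have h4 := yj_eq h2
  have hlen : ((len A ν : ℕ) : ℝ) ≤ φ (T A ν0 ^ (P * n)) + C := by
    have h5 : ((len A ν : ℕ) : ℝ) ≤ w.length := by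
      have : len A ν ≤ w.length := by omega
      exact_mod_cast this
    rw [hw'] at h5
    exact h5.trans (hC (P * n))
  have hphi : φ (T A ν0 ^ (P * n)) - C1 ≤ φ (T A ν) := by
    rw [h4, hφ.1]
    have h6 : |φ (yj A j y)| ≤ C1 :=
      Finset.single_le_sum (f := fun j : W A S => |φ (yj A j y)|) (fun _ _ => abs_nonneg _)
        (Finset.mem_univ j)
    have h7 := neg_abs_le (φ (yj A j y))
    linarith
  set μ : K A S → ℕ := fun i => if i ∈ Tt A S φ then 0 else ν i with hμ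
  set ρ : K A S → ℕ := fun i => if i ∈ Tt A S φ then ν i else 0 with hρ
  have hμρ : (fun i => μ i + ρ i) = ν := by
    funext i
    simp only [hμ, hρ]
    split_ifs <;> omega
  have hμB : ∀ i, μ i < B + 1 := by
    intro i
    by_cases hi : μ i = 0
    · omega
    · have hiT : i ∉ Tt A S φ := fun hcon => hi (by simp [hμ, hcon])
      have hμν : μ i = ν i := by simp [hμ, hiT]
      have hgood := (h1 i (by rwa [← hμν])).2
      have hlt : φ (tau A i) < i.2.1.length := by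
        refine lt_of_le_of_ne (hφ.2 i hgood) fun hcon => hiT ((mem_Tt A).2 ⟨hgood, hcon⟩)
      have hs := slack hφ ν (fun i hi => (h1 i hi).2) i
      have h8 : (ν i : ℝ) ≤ (C + C1) / ((i.2.1.length : ℝ) - φ (tau A i)) := by
        rw [le_div_iff₀ (by linarith)]
        linarith
      have h9 : ν i ≤ ⌈(C + C1) / ((i.2.1.length : ℝ) - φ (tau A i))⌉₊ := by
        exact_mod_cast h8.trans (Nat.le_ceil _)
      have h10 : ⌈(C + C1) / ((i.2.1.length : ℝ) - φ (tau A i))⌉₊ ≤ B :=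
        Finset.single_le_sum (f := fun i : K A S =>
          ⌈(C + C1) / ((i.2.1.length : ℝ) - φ (tau A i))⌉₊) (fun _ _ => Nat.zero_le _)
          (Finset.mem_univ i)
      omega
  have hTν : T A μ * T A ρ = T A ν := by rw [← T_add, hμρ]
  have hX : T A ν0 ^ (P * n) * X j (fun i => ⟨μ i, hμB i⟩) = T A ρ := by
    simp only [X]
    rw [← mul_assoc, ← h4, ← hTν]
    rw [mul_comm (T A μ) (T A ρ), mul_inv_cancel_right]
  have hmem : Mem A φ j (T A ν0 ^ (P * n) * X j (fun i => ⟨μ i, hμB i⟩)) := by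
    rw [hX]
    refine ⟨ρ, fun i hi => ?_, rfl⟩
    have hiT : i ∈ Tt A S φ := by
      by_contra hcon
      exact hi (by simp [hρ, hcon])
    have hν : ν i ≠ 0 := by
      intro hcon
      exact hi (by simp [hρ, hcon])
    exact ⟨hiT, (h1 i hν).1⟩
  obtain ⟨ρ', hρ', hTρ'⟩ := hn j _ hmem
  have hTρ2 : T A ρ' = h * T A ρ := by
    rw [hTρ', ← hX]
    exact mul_left_comm _ _ _
  have hsound := sound A j.1 (fun i => μ i + ρ' i) (by
    intro i hi
    by_cases h0 : μ i = 0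
    · have : ρ' i ≠ 0 := by
        intro hcon
        exact hi (by simp [h0, hcon])
      exact ⟨(hρ' i this).2, ((mem_Tt A).1 (hρ' i this).1).1⟩
    · apply h1 i
      intro hcon
      exact h0 (by simp [hμ, hcon]))
  have hprod : ((T A (fun i => μ i + ρ' i) : A) : G) * ev j.1 =
      ((T A ν0 ^ (P * n) : A) : G) * (h * y) := by
    have e1 : T A (fun i => μ i + ρ' i) = h * T A ν := by
      rw [T_add, hTρ2, ← hTν]
      exact mul_left_comm _ _ _
    rw [e1]
    have e2 : ((h * T A ν : A) : G) * ev j.1 = (h : G) * (((T A ν : A) : G) * ev j.1) := by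
      push_cast
      group
    rw [e2, h2]
    have e3 : (h : G) * ((T A ν0 ^ (P * n) : A) : G) = ((T A ν0 ^ (P * n) : A) : G) * h := by
      have := mul_comm h (T A ν0 ^ (P * n))
      exact congrArg Subtype.val this
    rw [← mul_assoc, e3, mul_assoc]
  rw [hprod] at hsound
  have hl1 : len A (fun i => μ i + ρ' i) = len A μ + len A ρ' := len_add A μ ρ'
  have hl2 : len A ν = len A μ + len A ρ := by
    rw [← len_add, hμρ]
  have hl3 : ((len A ρ' : ℕ) : ℝ) = φ h + (len A ρ : ℕ) := by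
    rw [← len_tight hφ ρ' (fun i hi => (hρ' i hi).1), hTρ2, hφ.1, len_tight hφ ρ]
    intro i hi
    by_contra hcon
    exact hi (by simp [hρ, hcon])
  rw [hl1] at hsound
  have hs2 : (wl S (((T A ν0 ^ (P * n) : A) : G) * (h * y)) : ℝ) ≤
      j.1.length + ((len A μ : ℕ) + (len A ρ' : ℕ)) := by exact_mod_cast hsound
  have hs3 : ((j.1.length : ℕ) : ℝ) + ((len A μ : ℕ) + (len A ρ : ℕ)) =
      wl S (((T A ν0 ^ (P * n) : A) : G) * y) := by
    rw [← hw', ← h3, hl2]
    push_cast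
    ring
  linarith

end Pool.Agent.Helper814_FO
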