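import Pool.Agent.Helper814_FO.FO4

/-!
# Finite orbits in the horofunction boundary of virtually abelian groups: conclusion
-/

set_option autoImplicit false
set_option linter.unusedSectionVars false

open scoped IsMulCommutative
open Filter Topology
open Pool.Agent.H205R3.Horo

namespace Pool.Agent.Helper814_FO

/-- an eventually nonincreasing integer sequence which is bounded below is eventually constant -/
theorem int_seq (c : ℕ → ℤ) (h : ∀ᶠ n in atTop, c (n + 1) ≤ c n) (B : ℤ) (hB : ∀ n, B ≤ c n) :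
    ∃ m : ℤ, ∀ᶠ n in atTop, c n = m := by
  obtain ⟨N, hN⟩ := eventually_atTop.1 h
  have hanti : ∀ k n : ℕ, N ≤ n → c (n + k) ≤ c n := by
    intro k
    induction k with
    | zero => intro n _; simp
    | succ k ih =>
      intro n hn
      exact (hN (n + k) (by omega)).trans (ih n hn)
  have hne : {m : ℕ | ∃ n, N ≤ n ∧ (c n - B).toNat = m}.Nonempty := ⟨_, N, le_rfl, rfl⟩
  obtain ⟨n0, hn0, hmin⟩ := Nat.sInf_mem hne
  refine ⟨c n0, ?_⟩
  filter_upwards [eventually_ge_atTop n0] with n hn
  obtain ⟨k, rfl⟩ := Nat.exists_eq_add_of_le hn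
  have h1 := hanti k n0 hn0
  have h2 : (c n0 - B).toNat ≤ (c (n0 + k) - B).toNat := by
    rw [hmin]
    exact Nat.sInf_le ⟨n0 + k, by omega, rfl⟩
  have h3 := hB n0
  have h4 := hB (n0 + k)
  omega

variable {G : Type} [Group G] {S : Finset G}

theorem infinite_sub (A : Subgroup G) [A.FiniteIndex] [Infinite G] : Infinite A := by
  by_contra hA
  rw [not_infinite_iff_finite] at hA
  have h1 := A.card_mul_index
  have h2 : Nat.card A ≠ 0 := Nat.card_pos.ne'
  have h3 : A.index ≠ 0 := Subgroup.FiniteIndex.index_ne_zero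
  have h4 : Nat.card G ≠ 0 := by
    rw [← h1]
    exact Nat.mul_ne_zero h2 h3
  have := Nat.finite_of_card_ne_zero h4
  exact not_finite G

theorem main_normal (A : Subgroup G) [A.FiniteIndex] [A.Normal] [IsMulCommutative A] [Infinite G]
    (hS : Subgroup.closure (S : Set G) = ⊤) :
    ∃ f : G → ℝ, (∃ x : ℕ → G, Tendsto (fun n => (wl S (x n)⁻¹ : ℝ)) atTop atTop ∧
      ∀ y : G, Tendsto (fun n => (wl S ((x n)⁻¹ * y) : ℝ) - (wl S (x n)⁻¹ : ℝ)) atTop (𝓝 (f y))) ∧
      (Set.range (fun g : G => fun y : G => f (g⁻¹ * y) - f g⁻¹)).Finite := by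
  classical
  have hFG : Group.FG G := ⟨⟨S, hS⟩⟩
  have hFA : Group.FG A := inferInstance
  have hinfA : Infinite A := infinite_sub A
  obtain ⟨φ, hφ, ν0, hν0, hdir⟩ := exists_direction A hS
  obtain ⟨P, hP, H, hH, hvP, hdich⟩ := main_dich hdir
  have hQ := fun (y : G) {h : A} (hh : h ∈ H) => lemQ hS hφ hν0 hdich y hh
  set v : A := T A ν0 with hv
  set ℓ : ℕ := P * len A ν0 with hℓ
  have hφv : ∀ n : ℕ, φ (v ^ (P * n)) = n * ℓ := by
    intro n
    rw [hφ.1.pow, hv, len_tight hφ ν0 hν0, hℓ]
    push_cast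
    ring
  have hℓpos : 1 ≤ ℓ := by
    by_contra hcon
    have h0 : P * len A ν0 = 0 := by omega
    have h1 : len A ν0 = 0 := by
      rcases Nat.mul_eq_zero.1 h0 with h | h
      · omega
      · exact h
    have h2 : v = 1 := by
      rw [hv]
      unfold H205R3.Horo.T
      apply Finset.prod_eq_one
      intro i _
      by_cases hi : ν0 i = 0
      · rw [hi, pow_zero]
      · have h3 : ν0 i * i.2.1.length = 0 := by
          unfold len at h1
          exact (Finset.sum_eq_zero_iff.1 h1) i (Finset.mem_univ i)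
        have h4 : i.2.1 = [] := by
          rcases Nat.mul_eq_zero.1 h3 with h | h
          · exact absurd h hi
          · exact List.length_eq_zero_iff.1 h
        have h5 : tau A i = 1 := by
          apply Subtype.ext
          have h6 : ev i.2.1 = 1 := by rw [h4]; rfl
          rw [tau_coe A i (by rw [h6]; exact A.one_mem), h6]
          simp
        rw [h5, one_pow]
    have hK : ¬ (KV A (∅ : Finset (K A S))).FiniteIndex := by
      intro hK
      have h3 : KV A (∅ : Finset (K A S)) = ⊥ := by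
        unfold KV
        simp
      rw [h3] at hK
      have h4 := hK.index_ne_zero
      rw [Subgroup.index_bot] at h4
      have := Nat.finite_of_card_ne_zero h4
      exact not_finite A
    obtain ⟨ψ, hψ, -, hne⟩ := hdir ∅ hK
    rw [h2, hψ.one] at hne
    exact hne rfl
  let a : ℕ → G := fun n => ((v ^ (P * n) : A) : G)
  let c : G → ℕ → ℤ := fun y n => (wl S (a n * y) : ℤ) - n * ℓ
  have hF : ∀ y : G, ∃ m : ℤ, ∀ᶠ n in atTop, c y n = m := by
    intro y
    obtain ⟨C, hC⟩ := lower (A := A) hS hφ y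
    apply int_seq _ _ (- ⌈C⌉)
    · intro n
      have h1 := hC (v ^ (P * n))
      rw [hφv] at h1
      have h2 := Int.le_ceil C
      have h3 : (- ⌈C⌉ : ℝ) ≤ (wl S (a n * y) : ℝ) - n * ℓ := by linarith
      simp only [c]
      exact_mod_cast h3
    · filter_upwards [hQ y hvP] with n hn
      have h1 : ((v ^ (P * n) : A) : G) * (((v ^ P : A) : G) * y) = a (n + 1) * y := by
        simp only [a]
        rw [mul_add, mul_one, pow_add]
        push_cast
        group
      rw [h1] at hn
      have h2 : φ (v ^ P) = ℓ := by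
        have := hφv 1
        simpa using this
      rw [h2] at hn
      simp only [c]
      have h3 : (wl S (a (n + 1) * y) : ℤ) ≤ wl S (a n * y) + ℓ := by exact_mod_cast hn
      push_cast
      linarith
  choose F hF using hF
  have hper : ∀ (y : G) (h : A), h ∈ H → (F (h * y) : ℝ) = F y + φ h := by
    have hle : ∀ (y : G) (h : A), h ∈ H → (F (h * y) : ℝ) ≤ F y + φ h := by
      intro y h hh
      obtain ⟨n, ⟨h1, h2⟩, h3⟩ := ((hF y).and (hF (h * y))).and (hQ y hh) |>.exists
      simp only [c, a] at h1 h2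
      have h1' : (wl S (((v ^ (P * n) : A) : G) * y) : ℝ) - n * ℓ = F y := by exact_mod_cast h1
      have h2' : (wl S (((v ^ (P * n) : A) : G) * (h * y)) : ℝ) - n * ℓ = F (h * y) := by
        exact_mod_cast h2
      linarith
    intro y h hh
    apply le_antisymm (hle y h hh)
    have h1 := hle ((h : G) * y) h⁻¹ (H.inv_mem hh)
    have h2 : ((h⁻¹ : A) : G) * ((h : G) * y) = y := by
      push_cast
      group
    rw [h2, hφ.1.inv] at h1
    linarith
  let f : G → ℝ := fun y => (F y : ℝ) - F 1
  have hfper : ∀ (y : G) (h : A), h ∈ H → f (h * y) = f y + φ h := by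
    intro y h hh
    simp only [f]
    rw [hper y h hh]
    ring
  refine ⟨f, ⟨fun n => (a n)⁻¹, ?_, ?_⟩, ?_⟩
  · obtain ⟨C, hC⟩ := lower (A := A) hS hφ (1 : G)
    have h1 : ∀ n : ℕ, (n : ℝ) - C ≤ (wl S ((a n)⁻¹)⁻¹ : ℝ) := by
      intro n
      have h2 := hC (v ^ (P * n))
      rw [hφv, mul_one] at h2
      rw [inv_inv]
      have h3 : (n : ℝ) ≤ n * ℓ := by
        have : (1 : ℝ) ≤ ℓ := by exact_mod_cast hℓpos
        have h4 : (0 : ℝ) ≤ n := Nat.cast_nonneg _
        nlinarith
      linarith
    refine tendsto_atTop_mono h1 ?_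
    exact tendsto_atTop_add_const_right _ _ tendsto_natCast_atTop_atTop
  · intro y
    apply tendsto_const_nhds.congr'
    filter_upwards [hF y, hF 1] with n h1 h2
    simp only [f, inv_inv]
    rw [← h1, ← h2]
    simp only [c]
    push_cast
    rw [mul_one]
    ring
  · have hfin : (H.map A.subtype).FiniteIndex := by
      constructor
      rw [Subgroup.index_map_subtype]
      exact Nat.mul_ne_zero hH.index_ne_zero Subgroup.FiniteIndex.index_ne_zero
    let Φ : G ⧸ (H.map A.subtype) → G → ℝ := fun q y => f (q.out⁻¹ * y) - f q.out⁻¹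
    have hfr : (Set.range Φ).Finite := Set.finite_range Φ
    apply hfr.subset
    rintro _ ⟨g, rfl⟩
    refine ⟨(g : G ⧸ (H.map A.subtype)), ?_⟩
    funext y
    obtain ⟨k, hk⟩ := QuotientGroup.mk_out_eq_mul (H.map A.subtype) g
    obtain ⟨h, hh, hk2⟩ := Subgroup.mem_map.1 k.2
    simp only [Φ]
    rw [hk, ← hk2]
    have e1 : (g * A.subtype h)⁻¹ * y = ((h⁻¹ : A) : G) * (g⁻¹ * y) := by
      rw [Subgroup.coe_subtype]
      push_cast
      group
    have e2 : (g * A.subtype h)⁻¹ = ((h⁻¹ : A) : G) * g⁻¹ := by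
      rw [Subgroup.coe_subtype]
      push_cast
      group
    rw [e1, e2, hfper _ _ (H.inv_mem hh), hfper _ _ (H.inv_mem hh)]
    ring

/-- **Virtually abelian groups.** -/
theorem main {G : Type} [Group G] [Infinite G] (A : Subgroup G) (hA : A.FiniteIndex)
    (hcomm : ∀ a ∈ A, ∀ b ∈ A, a * b = b * a) (S : Finset G)
    (hS : Subgroup.closure (S : Set G) = ⊤) :
    ∃ f : G → ℝ, (∃ x : ℕ → G, Tendsto (fun n => (wl S (x n)⁻¹ : ℝ)) atTop atTop ∧
      ∀ y : G, Tendsto (fun n => (wl S ((x n)⁻¹ * y) : ℝ) - (wl S (x n)⁻¹ : ℝ)) atTop (𝓝 (f y))) ∧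
      (Set.range (fun g : G => fun y : G => f (g⁻¹ * y) - f g⁻¹)).Finite := by
  have : A.normalCore.FiniteIndex := inferInstance
  have : IsMulCommutative A.normalCore := by
    refine IsMulCommutative.of_comm fun a b => Subtype.ext ?_
    exact hcomm _ (A.normalCore_le a.2) _ (A.normalCore_le b.2)
  exact main_normal A.normalCore hS

end Pool.Agent.Helper814_FO
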